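import Pool.Agent.R357.CYL.Half

/-!
# Covering ellipsoids by cylinders: `c(d, k) < 1` for all `3 ≤ k ≤ d - 3`

`IsLower d k c` (in `Pool/Agent/R357/CYL/Defs.lean`) says that finitely many `k`-codimensional
cylinders which cover an ellipsoid `K` of `𝔼^d` always have total cross-sectional volume (relative
to `K`) at least `c`; so `c(d, k)` is the greatest element of `{c | IsLower d k c}`.

Two cylinders are enough: for two orthogonal subspaces `X, Y` of dimension `d - k` the ball is
covered by `|π_X x| ≤ 1/√2` and `|π_Y x| ≤ 1/√2`, and for two orthogonal subspaces `X, Y` of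
dimension `k` it is covered by the cylinders with directions `X, Y` over the ellipsoids
`|y|² + |π_Y y|² ≤ 1` and `|y|² + |π_X y|² ≤ 1`.
-/

open Pool.Agent.R357.CYL

namespace Pool.Agent.Results.MP_15cfc2_co.BelowOne

theorem result :
    (∀ (d k : ℕ) (c : ℝ), k < d → IsLower d k c → c ≤ 2 * (1 / √2) ^ (min k (d - k))) ∧
    ∀ (d k : ℕ) (c : ℝ), 3 ≤ k → k + 3 ≤ d → IsLower d k c → c ≤ 1 / √2 := by
  refine ⟨fun d k c hkd hc => c_le_half hkd hc, ?_⟩
  intro d k c hk hkd hc
  refine (c_le_half (by omega) hc).trans ?_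
  have hs : (0 : ℝ) < √2 := Real.sqrt_pos.2 (by norm_num)
  have h1 : (1 : ℝ) < √2 := by
    rw [Real.lt_sqrt zero_le_one]
    norm_num
  have h2 : (1 / √2 : ℝ) ^ (min k (d - k)) ≤ (1 / √2) ^ 3 := by
    refine pow_le_pow_of_le_one (by positivity) ?_ (by omega)
    rw [div_le_one hs]
    exact h1.le
  have h3 : (1 / √2 : ℝ) ^ 3 = 1 / (2 * √2) := by
    have : √2 ^ 3 = 2 * √2 := by
      rw [pow_succ, Real.sq_sqrt (by norm_num)]
    rw [div_pow, one_pow, this]
  calc 2 * (1 / √2 : ℝ) ^ (min k (d - k)) ≤ 2 * (1 / √2) ^ 3 := by gcongr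
    _ = 2 * (1 / (2 * √2)) := by rw [h3]
    _ = 1 / √2 := by field_simp

end Pool.Agent.Results.MP_15cfc2_co.BelowOne
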